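import Pool.Agent.helper29.JZ.Spec

set_option autoImplicit false

namespace Pool.Agent.helper8.JZ

open Finset Polynomial Module Pool.Agent.helper29.JZ

lemma TRA_mem {h h' : ℕ} (M : Finset (Fin h × Fin h')) (z : Fin h' × Fin h) :
    z ∈ tr M ↔ z.swap ∈ M := by
  unfold tr
  rw [Finset.mem_image]
  constructor
  · rintro ⟨w, hw, rfl⟩
    simpa using hw
  · intro hz
    exact ⟨z.swap, hz, Prod.swap_swap z⟩

lemma TRA_mem_image {h h' : ℕ} (N : Finset (Fin h × Fin h')) (z : Fin h' × Fin h) :
    z ∈ N.image Prod.swap ↔ z.swap ∈ N := TRA_mem N z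

lemma TRA_col {h h' : ℕ} (M : Finset (Fin h × Fin h')) (m : Fin h') :
    col (tr M) m = row M m := by
  unfold col row
  have e : (tr M).filter (fun z => z.1 = m) = (M.filter fun z => z.2 = m).image Prod.swap := by
    ext z
    rw [TRA_mem_image, Finset.mem_filter, Finset.mem_filter, TRA_mem]
    rfl
  rw [e, Finset.card_image_of_injective _ Prod.swap_injective]

lemma TRA_row {h h' : ℕ} (M : Finset (Fin h × Fin h')) (k : Fin h) :
    row (tr M) k = col M k := by
  unfold col row
  have e : (tr M).filter (fun z => z.2 = k) = (M.filter fun z => z.1 = k).image Prod.swap := by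
    ext z
    rw [TRA_mem_image, Finset.mem_filter, Finset.mem_filter, TRA_mem]
    rfl
  rw [e, Finset.card_image_of_injective _ Prod.swap_injective]

lemma TRA_PA {h h' : ℕ} (M : Finset (Fin h × Fin h')) :
    PA (tr M) = (PB M).image Prod.swap := by
  ext z
  rw [TRA_mem_image]
  unfold PA PB
  rw [Finset.mem_filter, Finset.mem_filter, TRA_mem, TRA_col]
  rfl

lemma TRA_PB {h h' : ℕ} (M : Finset (Fin h × Fin h')) :
    PB (tr M) = (PA M).image Prod.swap := by
  ext z
  rw [TRA_mem_image]
  unfold PA PB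
  rw [Finset.mem_filter, Finset.mem_filter, TRA_mem, TRA_row]
  rfl

theorem jz_TRA : TRA_stmt := by
  intro h h' M
  refine ⟨?_, TRA_col M, TRA_row M, TRA_PA M, TRA_PB M, ?_, ?_⟩
  · unfold tr
    rw [Finset.card_image_of_injective _ Prod.swap_injective]
  · ext z
    rw [TRA_mem, TRA_mem, Prod.swap_swap]
  · intro x y P Q
    ext z
    rw [TRA_mem_image]
    unfold HC HB
    rw [Finset.mem_filter, Finset.mem_filter, TRA_PA, TRA_mem_image]
    rfl

end Pool.Agent.helper8.JZ
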